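import Pool.Agent.H76R2.TW.Pm
import Pool.Agent.Q112.CH.Augment

/-!
# Parity factors of regular graphs with large edge cuts

Let `G` be a `d`-regular graph in which every nonempty proper set of vertices is left by at least
`d` edges, and let `O` be a set of vertices of even size. There is a multiset `J` of edges which
meets the vertices of `O` exactly once and all other vertices either not at all or exactly twice.
-/

set_option autoImplicit false
set_option linter.unusedSectionVars false

namespace Pool.Agent.Q142.TWK

open Finset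
open Pool.Agent.Q112.CH (dg)

variable {W : Type}

open Classical in
/-- number of the arcs of `G` leaving `K` -/
noncomputable def bd [Fintype W] (G : SimpleGraph W) (K : Finset W) : ℕ :=
  ∑ x, ∑ y, if G.Adj x y ∧ x ∈ K ∧ y ∉ K then 1 else 0

open Classical in
/-- `1` if the pair `e` contains `v`, and `0` otherwise -/
noncomputable def mi (v : W) (e : Sym2 W) : ℕ := if v ∈ e then 1 else 0

/-- number of the members of `J` which contain `v` -/
noncomputable def md (J : Multiset (Sym2 W)) (v : W) : ℕ := (J.map (mi v)).sum

/-- the vertices of the auxiliary graph: two copies of each vertex outside `O` and one copy of each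
vertex of `O` -/
abbrev Cp (O : Finset W) : Type := W ⊕ {w : W // w ∉ O}

/-- the vertex of which `x` is a copy -/
def base {O : Finset W} : Cp O → W
  | Sum.inl w => w
  | Sum.inr w => w.1

open Classical in
/-- the mass of a copy -/
noncomputable def ms {O : Finset W} (x : Cp O) : ℕ := if base x ∈ O then 2 else 1

open Classical in
/-- weights between copies of adjacent vertices -/
noncomputable def wA (G : SimpleGraph W) {O : Finset W} (x y : Cp O) : ℕ :=
  if G.Adj (base x) (base y) then ms x * ms y else 0

open Classical in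
/-- weights between the two copies of a vertex -/
noncomputable def wP (d : ℕ) {O : Finset W} (x y : Cp O) : ℕ :=
  if base x = base y ∧ x ≠ y then 2 * d else 0

section

variable [Fintype W] [DecidableEq W] {O : Finset W}

theorem mass (g : W → ℕ) : ∑ y : Cp O, ms y * g (base y) = ∑ v, 2 * g v := by
  classical
  rw [Fintype.sum_sum_type]
  have h1 : ∑ a : {w : W // w ∉ O}, ms (Sum.inr a : Cp O) * g (base (Sum.inr a : Cp O)) =
      ∑ v, if v ∈ O then 0 else g v := by
    rw [← Finset.sum_filter_add_sum_filter_not univ (fun v => v ∈ O)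
      (fun v => if v ∈ O then 0 else g v)]
    rw [Finset.sum_eq_zero (s := univ.filter fun v => v ∈ O) (fun v hv => by
      rw [if_pos (mem_filter.1 hv).2]), zero_add]
    rw [Finset.sum_subtype (univ.filter fun v => v ∉ O) (p := fun w => w ∉ O) (by simp)]
    refine Finset.sum_congr rfl fun a _ => ?_
    rw [if_neg a.2]
    show ms (Sum.inr a : Cp O) * g a.1 = g a.1
    have : ms (Sum.inr a : Cp O) = 1 := if_neg a.2
    rw [this, one_mul]
  rw [h1, ← Finset.sum_add_distrib]
  refine Finset.sum_congr rfl fun v _ => ?_
  show ms (Sum.inl v : Cp O) * g v + _ = _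
  by_cases hv : v ∈ O
  · have : ms (Sum.inl v : Cp O) = 2 := if_pos hv
    rw [this, if_pos hv, add_zero]
  · have : ms (Sum.inl v : Cp O) = 1 := if_neg hv
    rw [this, if_neg hv]
    ring

/-- mass of the copies of `w` in `X` -/
noncomputable def nn (X : Finset (Cp O)) (w : W) : ℕ := ∑ y ∈ X.filter (fun y => base y = w), ms y

theorem sum_base (X : Finset (Cp O)) (g : W → ℕ) :
    ∑ y ∈ X, ms y * g (base y) = ∑ w, nn X w * g w := by
  classical
  rw [← Finset.sum_fiberwise X base (fun y => ms y * g (base y))]
  refine Finset.sum_congr rfl fun w _ => ?_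
  rw [nn, Finset.sum_mul]
  refine Finset.sum_congr rfl fun y hy => ?_
  rw [(mem_filter.1 hy).2]

theorem nn_add (X : Finset (Cp O)) (w : W) : nn X w + nn Xᶜ w = 2 := by
  classical
  have h := mass (O := O) (fun v => if v = w then 1 else 0)
  have h2 : ∑ v : W, 2 * (if v = w then 1 else 0) = 2 := by simp
  rw [h2, ← Finset.sum_add_sum_compl X, sum_base X (fun v => if v = w then 1 else 0),
    sum_base Xᶜ (fun v => if v = w then 1 else 0)] at h
  simpa using h

theorem nn_pos {X : Finset (Cp O)} {w : W} (h : nn X w ≠ 0) : ∃ y ∈ X, base y = w := by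
  classical
  by_contra hno
  push Not at hno
  apply h
  rw [nn, Finset.filter_false_of_mem (fun y hy => hno y hy), Finset.sum_empty]

theorem nn_pos' {X : Finset (Cp O)} {y : Cp O} (hy : y ∈ X) : nn X (base y) ≠ 0 := by
  classical
  have h1 : ms y ≤ nn X (base y) := Finset.single_le_sum (f := fun y => ms y) (fun _ _ => Nat.zero_le _)
    (mem_filter.2 ⟨hy, rfl⟩)
  have h2 : 1 ≤ ms y := by
    unfold ms
    split_ifs <;> omega
  omega

/-- the arcs between copies of adjacent vertices in a cut -/
theorem cutA (G : SimpleGraph W) (X : Finset (Cp O)) [DecidableRel G.Adj] :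
    ∑ u ∈ X, ∑ v ∈ Xᶜ, wA G u v = ∑ a, ∑ c, if G.Adj a c then nn X a * nn Xᶜ c else 0 := by
  classical
  have h1 : ∀ u : Cp O, ∑ v ∈ Xᶜ, wA G u v =
      ms u * ∑ c, (if G.Adj (base u) c then nn Xᶜ c else 0) := by
    intro u
    have h2 := sum_base (O := O) Xᶜ (fun c => if G.Adj (base u) c then 1 else 0)
    have h3 : ∑ c, nn Xᶜ c * (if G.Adj (base u) c then 1 else 0) =
        ∑ c, (if G.Adj (base u) c then nn Xᶜ c else 0) := by
      refine Finset.sum_congr rfl fun c _ => ?_
      split_ifs <;> simp
    rw [← h3, ← h2, Finset.mul_sum]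
    refine Finset.sum_congr rfl fun v _ => ?_
    unfold wA
    by_cases h : G.Adj (base u) (base v)
    · rw [if_pos h, if_pos h, mul_one]
    · rw [if_neg h, if_neg h, mul_zero, mul_zero]
  rw [Finset.sum_congr rfl fun u _ => h1 u,
    sum_base X (fun a => ∑ c, (if G.Adj a c then nn Xᶜ c else 0))]
  refine Finset.sum_congr rfl fun a _ => ?_
  rw [Finset.mul_sum]
  refine Finset.sum_congr rfl fun c _ => ?_
  split_ifs <;> simp

/-- the pairs split by a cut -/
theorem cutP (d : ℕ) (X : Finset (Cp O)) :
    2 * d * (univ.filter fun w => nn X w = 1).card ≤ ∑ u ∈ X, ∑ v ∈ Xᶜ, wP d u v := by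
  classical
  rw [← Finset.sum_fiberwise X base (fun u => ∑ v ∈ Xᶜ, wP d u v)]
  calc 2 * d * (univ.filter fun w => nn X w = 1).card
      = ∑ w ∈ univ.filter (fun w => nn X w = 1), 2 * d := by
        rw [Finset.sum_const, smul_eq_mul, mul_comm]
    _ ≤ ∑ w ∈ univ.filter (fun w => nn X w = 1),
          ∑ u ∈ X.filter (fun u => base u = w), ∑ v ∈ Xᶜ, wP d u v := by
        refine Finset.sum_le_sum fun w hw => ?_
        have hw1 := (mem_filter.1 hw).2
        have hw2 : nn Xᶜ w = 1 := by
          have := nn_add X w
          omega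
        obtain ⟨u, hu, hub⟩ := nn_pos (X := X) (w := w) (by omega)
        obtain ⟨v, hv, hvb⟩ := nn_pos (X := Xᶜ) (w := w) (by omega)
        have h1 : wP d u v = 2 * d := if_pos ⟨hub.trans hvb.symm, fun h => by
          rw [h] at hu
          exact (mem_compl.1 hv) hu⟩
        calc 2 * d = wP d u v := h1.symm
          _ ≤ ∑ v ∈ Xᶜ, wP d u v := Finset.single_le_sum (f := fun v => wP d u v)
              (fun _ _ => Nat.zero_le _) hv
          _ ≤ _ := Finset.single_le_sum (f := fun u => ∑ v ∈ Xᶜ, wP d u v)
              (fun _ _ => Nat.zero_le _) (mem_filter.2 ⟨hu, hub⟩)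
    _ ≤ _ := Finset.sum_le_sum_of_subset (Finset.filter_subset _ _)

/-- all odd cuts of the auxiliary multigraph are large -/
theorem cut_large (G : SimpleGraph W) (d : ℕ) (hdeg : ∀ v, dg G v = d)
    (hbd : ∀ K : Finset W, K.Nonempty → K ≠ univ → d ≤ bd G K) (hO : Even O.card)
    (X : Finset (Cp O)) (hX : Odd X.card) :
    4 * d ≤ H76FC.cut (fun x y : Cp O => wA G x y + wP d x y) X := by
  classical
  unfold H76FC.cut
  have h0 : ∑ u ∈ X, ∑ v ∈ Xᶜ, (wA G u v + wP d u v) =
      ∑ u ∈ X, ∑ v ∈ Xᶜ, wA G u v + ∑ u ∈ X, ∑ v ∈ Xᶜ, wP d u v := by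
    rw [← Finset.sum_add_distrib]
    exact Finset.sum_congr rfl fun u _ => Finset.sum_add_distrib
  rw [h0, cutA]
  have hP := cutP d X
  set B : Finset W := univ.filter fun w => nn X w = 1 with hB
  have hle : ∀ w, nn X w ≤ 2 := fun w => by
    have := nn_add X w
    omega
  rcases Nat.lt_or_ge B.card 2 with hB2 | hB2
  · rcases Nat.eq_zero_or_pos B.card with hB0 | hB1
    · -- no split pair
      have hno : ∀ w, nn X w ≠ 1 := by
        intro w hw
        have : w ∈ B := mem_filter.2 ⟨mem_univ _, hw⟩
        rw [card_eq_zero.1 hB0] at this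
        simp at this
      set K : Finset W := univ.filter fun w => nn X w = 2 with hK
      have hXne : X.Nonempty := by
        rw [Finset.nonempty_iff_ne_empty]
        rintro rfl
        simp at hX
      obtain ⟨y0, hy0⟩ := hXne
      have hKne : K.Nonempty := ⟨base y0, mem_filter.2 ⟨mem_univ _, by
        have h1 := nn_pos' hy0
        have h2 := hno (base y0)
        have h3 := hle (base y0)
        omega⟩⟩
      have hKun : K ≠ univ := by
        intro hKu
        have hall : X = univ := by
          rw [Finset.eq_univ_iff_forall]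
          intro y
          by_contra hy
          have h1 : nn Xᶜ (base y) ≠ 0 := nn_pos' (mem_compl.2 hy)
          have h2 : base y ∈ K := by rw [hKu]; exact mem_univ _
          have h3 := (mem_filter.1 h2).2
          have h4 := nn_add X (base y)
          omega
        rw [hall, card_univ, Fintype.card_sum] at hX
        have h5 : Fintype.card {w : W // w ∉ O} + O.card = Fintype.card W := by
          rw [Fintype.card_subtype_compl, Fintype.card_coe]
          have := Finset.card_le_univ O
          omega
        obtain ⟨k, hk⟩ := hO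
        obtain ⟨l, hl⟩ := hX
        omega
      have h1 := hbd K hKne hKun
      have h2 : 4 * bd G K ≤ ∑ a, ∑ c, if G.Adj a c then nn X a * nn Xᶜ c else 0 := by
        unfold bd
        rw [Finset.mul_sum]
        refine Finset.sum_le_sum fun a _ => ?_
        rw [Finset.mul_sum]
        refine Finset.sum_le_sum fun c _ => ?_
        by_cases h : G.Adj a c ∧ a ∈ K ∧ c ∉ K
        · rw [if_pos h, if_pos h.1]
          have h3 := (mem_filter.1 h.2.1).2
          have h4 : nn X c ≠ 2 := fun h5 => h.2.2 (mem_filter.2 ⟨mem_univ _, h5⟩)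
          have h6 := hno c
          have h7 := hle c
          have h8 := nn_add X c
          have h9 : nn Xᶜ c = 2 := by omega
          rw [h3, h9]
          norm_num
        · rw [if_neg h]
          exact Nat.zero_le _
      have h3 : 4 * d ≤ 4 * bd G K := Nat.mul_le_mul_left 4 h1
      omega
    · -- exactly one split pair
      have hBc : B.card = 1 := by omega
      obtain ⟨b, hb⟩ := card_eq_one.1 hBc
      have hbB : nn X b = 1 := by
        have : b ∈ B := by rw [hb]; exact mem_singleton_self b
        exact (mem_filter.1 this).2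
      have hbB' : nn Xᶜ b = 1 := by
        have := nn_add X b
        omega
      have h1 : 2 * d ≤ ∑ a, ∑ c, if G.Adj a c then nn X a * nn Xᶜ c else 0 := by
        -- rows
        have e1 : ∑ a, ∑ c, (if G.Adj a c then nn X a * nn Xᶜ c else 0) =
            (∑ c, if G.Adj b c then nn X b * nn Xᶜ c else 0) +
            ∑ a ∈ univ.erase b, ∑ c, (if G.Adj a c then nn X a * nn Xᶜ c else 0) :=
          (Finset.add_sum_erase univ _ (mem_univ b)).symm
        have e2 : ∑ a ∈ univ.erase b, (if G.Adj a b then nn X a * nn Xᶜ b else 0) ≤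
            ∑ a ∈ univ.erase b, ∑ c, (if G.Adj a c then nn X a * nn Xᶜ c else 0) := by
          refine Finset.sum_le_sum fun a _ => ?_
          exact Finset.single_le_sum (f := fun c => if G.Adj a c then nn X a * nn Xᶜ c else 0)
            (fun _ _ => Nat.zero_le _) (mem_univ b)
        have e3 : ∑ a ∈ univ.erase b, (if G.Adj a b then nn X a * nn Xᶜ b else 0) =
            ∑ a, (if G.Adj a b then nn X a * nn Xᶜ b else 0) := by
          rw [← Finset.add_sum_erase univ _ (mem_univ b), if_neg (G.loopless.irrefl b), zero_add]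
        have e4 : (∑ c, if G.Adj b c then nn X b * nn Xᶜ c else 0) +
            ∑ a, (if G.Adj a b then nn X a * nn Xᶜ b else 0) = 2 * d := by
          rw [← Finset.sum_add_distrib, ← hdeg b, dg, card_filter, Finset.mul_sum]
          refine Finset.sum_congr rfl fun c _ => ?_
          rw [hbB, hbB']
          by_cases h : G.Adj b c
          · rw [if_pos h, if_pos h.symm, if_pos h]
            have := nn_add X c
            omega
          · rw [if_neg h, if_neg fun h' => h h'.symm, if_neg h]
            rfl
        omega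
      rw [hBc, mul_one] at hP
      omega
  · have h1 : 2 * d * 2 ≤ 2 * d * B.card := Nat.mul_le_mul_left _ hB2
    omega

theorem reg_gadget (G : SimpleGraph W) (d : ℕ) (hdeg : ∀ v, dg G v = d) (x : Cp O) :
    ∑ y, (wA G x y + wP d x y) = 4 * d := by
  classical
  rw [Finset.sum_add_distrib]
  have h1 : ∑ y, wA G x y = ms x * (2 * d) := by
    have h2 := mass (O := O) (fun c => if G.Adj (base x) c then 1 else 0)
    have h3 : ∑ v, 2 * (if G.Adj (base x) v then 1 else 0) = 2 * d := by
      rw [← Finset.mul_sum, ← card_filter, ← hdeg (base x)]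
      rfl
    rw [h3] at h2
    rw [← h2, Finset.mul_sum]
    refine Finset.sum_congr rfl fun y _ => ?_
    unfold wA
    by_cases h : G.Adj (base x) (base y)
    · rw [if_pos h, if_pos h, mul_one]
    · rw [if_neg h, if_neg h, mul_zero, mul_zero]
  have h4 : ∑ y, wP d x y = if base x ∈ O then 0 else 2 * d := by
    cases x with
    | inl w =>
      rw [Fintype.sum_sum_type]
      have h6 : ∑ a : W, wP d (Sum.inl w : Cp O) (Sum.inl a) = 0 := by
        refine Finset.sum_eq_zero fun a _ => if_neg ?_
        rintro ⟨h7, h8⟩
        exact h8 (congrArg Sum.inl h7)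
      rw [h6, zero_add]
      by_cases hw : w ∈ O
      · have h9 : (if base (Sum.inl w : Cp O) ∈ O then 0 else 2 * d) = 0 := if_pos hw
        rw [h9]
        refine Finset.sum_eq_zero fun a _ => if_neg ?_
        rintro ⟨h7, _⟩
        have h7' : w = a.1 := h7
        exact a.2 (h7' ▸ hw)
      · have h9 : (if base (Sum.inl w : Cp O) ∈ O then 0 else 2 * d) = 2 * d := if_neg hw
        rw [h9, Finset.sum_eq_single (⟨w, hw⟩ : {w : W // w ∉ O})]
        · exact if_pos ⟨rfl, by simp⟩
        · intro a _ ha
          refine if_neg ?_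
          rintro ⟨h7, _⟩
          apply ha
          exact Subtype.ext (Eq.symm h7)
        · intro h
          exact absurd (mem_univ _) h
    | inr w =>
      have h9 : (if base (Sum.inr w : Cp O) ∈ O then 0 else 2 * d) = 2 * d := if_neg w.2
      rw [h9, Fintype.sum_sum_type]
      have h6 : ∑ a : {w : W // w ∉ O}, wP d (Sum.inr w : Cp O) (Sum.inr a) = 0 := by
        refine Finset.sum_eq_zero fun a _ => if_neg ?_
        rintro ⟨h7, h8⟩
        exact h8 (congrArg Sum.inr (Subtype.ext h7))
      rw [h6, add_zero, Finset.sum_eq_single w.1]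
      · exact if_pos ⟨rfl, by simp⟩
      · intro a _ ha
        refine if_neg ?_
        rintro ⟨h7, _⟩
        exact ha (Eq.symm h7)
      · intro h
        exact absurd (mem_univ _) h
  rw [h1, h4]
  unfold ms
  split_ifs <;> ring

/-- the auxiliary multigraph has a perfect matching -/
theorem exists_involution (G : SimpleGraph W) (d : ℕ) (hd : 1 ≤ d) (hdeg : ∀ v, dg G v = d)
    (hbd : ∀ K : Finset W, K.Nonempty → K ≠ univ → d ≤ bd G K) (hO : Even O.card) :
    ∃ M : Cp O → Cp O, (∀ x, M (M x) = x) ∧ (∀ x, M x ≠ x) ∧
      ∀ x, base x = base (M x) ∨ G.Adj (base x) (base (M x)) := by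
  classical
  have hR : H76FC.RGraph (4 * d) (fun x y : Cp O => wA G x y + wP d x y) := by
    constructor
    · intro v
      have h1 : wA G v v = 0 := if_neg (G.loopless.irrefl _)
      have h2 : wP d v v = 0 := if_neg fun h => h.2 rfl
      show wA G v v + wP d v v = 0
      rw [h1, h2]
    · intro u v
      show wA G u v + wP d u v = wA G v u + wP d v u
      unfold wA wP
      rw [G.adj_comm, mul_comm (ms u)]
      congr 1
      by_cases h : base u = base v ∧ u ≠ v
      · rw [if_pos h, if_pos ⟨h.1.symm, h.2.symm⟩]
      · rw [if_neg h, if_neg fun h' => h ⟨h'.1.symm, h'.2.symm⟩]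
    · intro v
      exact reg_gadget G d hdeg v
    · intro X hX
      exact cut_large G d hdeg hbd hO X hX
  obtain ⟨M, ⟨hM1, hM2⟩, hM3⟩ := H76TW.pm (Cp O) (4 * d) _ (by omega) hR
  refine ⟨M, hM1, hM2, fun x => ?_⟩
  have h := hM3 x
  by_cases h1 : G.Adj (base x) (base (M x))
  · exact Or.inr h1
  · left
    have h2 : wA G x (M x) = 0 := if_neg h1
    have h' : 0 < wA G x (M x) + wP d x (M x) := h
    rw [h2, zero_add] at h'
    by_contra h3
    have h4 : wP d x (M x) = 0 := if_neg fun h => h3 h.1
    omega

end

end Pool.Agent.Q142.TWK
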