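import Pool.Agent.Q142.TWK.Factor

/-!
# The multiset of edges of a parity factor
-/

set_option autoImplicit false
set_option linter.unusedSectionVars false

namespace Pool.Agent.Q142.TWK

open Finset
open Pool.Agent.Q112.CH (dg)

variable {W : Type} [Fintype W] [DecidableEq W] {O : Finset W}

theorem base_of_mem {v : W} (hv : v ∈ O) {x : Cp O} (h : base x = v) : x = Sum.inl v := by
  cases x with
  | inl w => exact congrArg Sum.inl h
  | inr w => exact absurd hv (h ▸ w.2)

theorem base_of_not_mem {v : W} (hv : v ∉ O) {x : Cp O} (h : base x = v) :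
    x = Sum.inl v ∨ x = Sum.inr ⟨v, hv⟩ := by
  cases x with
  | inl w => exact Or.inl (congrArg Sum.inl h)
  | inr w => exact Or.inr (congrArg Sum.inr (Subtype.ext h))

theorem card_moved_mem {M : Cp O → Cp O} (hM : ∀ x, M x ≠ x) {v : W} (hv : v ∈ O) :
    (univ.filter fun x : Cp O => base x = v ∧ base x ≠ base (M x)).card = 1 := by
  rw [card_eq_one]
  refine ⟨Sum.inl v, ?_⟩
  ext x
  rw [mem_filter, mem_singleton]
  constructor
  · rintro ⟨_, h, _⟩
    exact base_of_mem hv h
  · rintro rfl
    refine ⟨mem_univ _, rfl, fun h => hM (Sum.inl v) ?_⟩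
    exact base_of_mem hv h.symm

theorem card_moved_not_mem {M : Cp O → Cp O} (hM1 : ∀ x, M (M x) = x) (hM : ∀ x, M x ≠ x) {v : W}
    (hv : v ∉ O) : (univ.filter fun x : Cp O => base x = v ∧ base x ≠ base (M x)).card = 0 ∨
      (univ.filter fun x : Cp O => base x = v ∧ base x ≠ base (M x)).card = 2 := by
  by_cases h : base (M (Sum.inl v)) = v
  · left
    have h1 : M (Sum.inl v) = Sum.inr ⟨v, hv⟩ := by
      rcases base_of_not_mem hv h with h2 | h2
      · exact absurd h2 (hM _)
      · exact h2
    have h2 : M (Sum.inr ⟨v, hv⟩) = Sum.inl v := by rw [← h1, hM1]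
    rw [card_eq_zero, Finset.filter_eq_empty_iff]
    rintro x _ ⟨h3, h4⟩
    apply h4
    rcases base_of_not_mem hv h3 with rfl | rfl
    · exact h.symm
    · rw [h2]
      rfl
  · right
    have h2 : base (M (Sum.inr ⟨v, hv⟩ : Cp O)) ≠ v := by
      intro h3
      rcases base_of_not_mem hv h3 with h4 | h4
      · apply h
        rw [← h4, hM1]
        rfl
      · exact hM _ h4
    have h3 : (univ.filter fun x : Cp O => base x = v ∧ base x ≠ base (M x)) =
        {Sum.inl v, Sum.inr ⟨v, hv⟩} := by
      ext x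
      rw [mem_filter, mem_insert, mem_singleton]
      constructor
      · rintro ⟨_, h, _⟩
        exact base_of_not_mem hv h
      · rintro (rfl | rfl)
        · exact ⟨mem_univ _, rfl, fun h' => h h'.symm⟩
        · exact ⟨mem_univ _, rfl, fun h' => h2 h'.symm⟩
    rw [h3, card_pair (by simp)]

theorem mi_mk {a b : W} (hab : a ≠ b) (v : W) :
    mi v s(a, b) = (if a = v then 1 else 0) + (if b = v then 1 else 0) := by
  unfold mi
  by_cases ha : a = v
  · have hb : b ≠ v := fun hb => hab (ha.trans hb.symm)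
    rw [if_pos ha, if_neg hb, if_pos (by rw [Sym2.mem_iff]; exact Or.inl ha.symm)]
  · by_cases hb : b = v
    · rw [if_neg ha, if_pos hb, if_pos (by rw [Sym2.mem_iff]; exact Or.inr hb.symm)]
    · rw [if_neg ha, if_neg hb, if_neg]
      rw [Sym2.mem_iff]
      rintro (h | h)
      · exact ha h.symm
      · exact hb h.symm

/-- **Parity factors.** -/
theorem exists_join (G : SimpleGraph W) (d : ℕ) (hd : 1 ≤ d) (hdeg : ∀ v, dg G v = d)
    (hbd : ∀ K : Finset W, K.Nonempty → K ≠ univ → d ≤ bd G K) (O : Finset W) (hO : Even O.card) :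
    ∃ J : Multiset (Sym2 W), (∀ e ∈ J, e ∈ G.edgeSet) ∧ (∀ v ∈ O, md J v = 1) ∧
      ∀ v, v ∉ O → md J v = 0 ∨ md J v = 2 := by
  classical
  obtain ⟨M, hM1, hM2, hM3⟩ := exists_involution (O := O) G d hd hdeg hbd hO
  let e := Fintype.equivFin (Cp O)
  set R : Finset (Cp O) := univ.filter fun x => e x < e (M x) ∧ base x ≠ base (M x) with hR
  have hmem : ∀ x, x ∈ R ↔ e x < e (M x) ∧ base x ≠ base (M x) := fun x => by simp [hR]
  have key : ∀ v, md (R.val.map fun x => s(base x, base (M x))) v =
      (univ.filter fun x : Cp O => base x = v ∧ base x ≠ base (M x)).card := by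
    intro v
    have h1 : md (R.val.map fun x => s(base x, base (M x))) v =
        ∑ x ∈ R, mi v s(base x, base (M x)) := by
      unfold md
      rw [Multiset.map_map]
      rfl
    have h2 : ∀ x ∈ R, mi v s(base x, base (M x)) =
        (if base x = v then 1 else 0) + (if base (M x) = v then 1 else 0) := by
      intro x hx
      exact mi_mk ((hmem x).1 hx).2 v
    rw [h1, sum_congr rfl h2, sum_add_distrib, ← card_filter, ← card_filter]
    have h4 : (R.filter fun x => base (M x) = v).card =
        (univ.filter fun y : Cp O => (e (M y) < e y ∧ base y ≠ base (M y)) ∧ base y = v).card := by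
      refine card_bij (fun x _ => M x) ?_ ?_ ?_
      · intro x hx
        obtain ⟨hx1, hx2⟩ := mem_filter.1 hx
        obtain ⟨hx3, hx4⟩ := (hmem x).1 hx1
        refine mem_filter.2 ⟨mem_univ _, ⟨?_, ?_⟩, hx2⟩
        · rwa [hM1]
        · rw [hM1]
          exact hx4.symm
      · intro x _ y _ hxy
        rw [← hM1 x, hxy, hM1]
      · intro y hy
        obtain ⟨_, ⟨hy1, hy2⟩, hy3⟩ := mem_filter.1 hy
        refine ⟨M y, mem_filter.2 ⟨(hmem _).2 ⟨?_, ?_⟩, ?_⟩, hM1 y⟩
        · rwa [hM1]
        · rw [hM1]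
          exact hy2.symm
        · rwa [hM1]
    rw [h4, ← card_union_of_disjoint]
    · congr 1
      ext x
      rw [mem_union, mem_filter, hmem, mem_filter, mem_filter]
      constructor
      · rintro (⟨⟨_, h5⟩, h6⟩ | ⟨_, ⟨_, h5⟩, h6⟩)
        · exact ⟨mem_univ _, h6, h5⟩
        · exact ⟨mem_univ _, h6, h5⟩
      · rintro ⟨_, h6, h5⟩
        have h7 : e x ≠ e (M x) := fun h => hM2 x (e.injective h).symm
        rcases lt_or_gt_of_ne h7 with h8 | h8
        · exact Or.inl ⟨⟨h8, h5⟩, h6⟩
        · exact Or.inr ⟨mem_univ _, ⟨h8, h5⟩, h6⟩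
    · rw [Finset.disjoint_left]
      intro x hx hx'
      have h5 := ((hmem x).1 (mem_filter.1 hx).1).1
      have h6 := (mem_filter.1 hx').2.1.1
      exact lt_asymm h5 h6
  refine ⟨R.val.map fun x => s(base x, base (M x)), ?_, ?_, ?_⟩
  · intro ed hed
    obtain ⟨x, hx, rfl⟩ := Multiset.mem_map.1 hed
    have h1 := ((hmem x).1 hx).2
    rcases hM3 x with h2 | h2
    · exact absurd h2 h1
    · exact h2
  · intro v hv
    rw [key v]
    exact card_moved_mem hM2 hv
  · intro v hv
    rw [key v]
    exact card_moved_not_mem hM1 hM2 hv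

end Pool.Agent.Q142.TWK
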