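import Pool.Agent.Q142.TWK.Walk
import Pool.Agent.H63R3.Sep1

/-!
# Graphs of simple polytopes

The graph of a simple `d`-polytope is connected and `d`-regular, and every nonempty proper set of
vertices is left by at least `d` edges (Balinski's theorem and Whitney's inequality).
-/

set_option autoImplicit false
set_option linter.unusedSectionVars false

namespace Pool.Agent.Q142.TWK

open Finset
open Pool.Agent.Helper715
open Pool.Agent.Q112.CH (dg)
open Pool.Agent.H63R3.Sep

variable {d : ℕ} {S : Finset (EuclideanSpace ℝ (Fin d))}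
  {P : CP (WithLp 2 (EuclideanSpace ℝ (Fin d) × ℝ))}

/-- a `d`-polytope has at least `d + 1` vertices -/
theorem nodes_card (hP : (P.V : Set (WithLp 2 (EuclideanSpace ℝ (Fin d) × ℝ))) =
    hm '' (S : Set (EuclideanSpace ℝ (Fin d)))) [Fintype (Node S)] :
    d + 1 ≤ Fintype.card (Node S) := by
  by_contra hlt
  push Not at hlt
  set K : Submodule ℝ (WithLp 2 (EuclideanSpace ℝ (Fin d) × ℝ)) :=
    Submodule.span ℝ (Set.range fun x : Node S => hm x.1) with hK
  have h1 : Module.finrank ℝ K ≤ Fintype.card (Node S) := finrank_range_le_card _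
  have h2 : Module.finrank ℝ (WithLp 2 (EuclideanSpace ℝ (Fin d) × ℝ)) = d + 1 := by
    rw [finrank_hm]
    simp
  obtain ⟨y, hy0, hy⟩ := CP.exists_orth K (by omega)
  obtain ⟨w, hw, hw0⟩ := CP.exists_ne_zero (P := P) hy0
  have key : ∀ y : WithLp 2 (EuclideanSpace ℝ (Fin d) × ℝ), (∀ k ∈ K, inner ℝ y k = 0) →
      0 < inner ℝ y w → False := by
    intro y hy hpos
    obtain ⟨a, _, x, hx, hxpos⟩ := CP.exists_node (P := P) CP.top_cl ⟨w, hw, hpos⟩
    obtain ⟨n, hn⟩ := ph_surj (S := S) hP (a.cov a.cl.sub)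
    rw [← hn, ph, mem_toA] at hx
    obtain ⟨_, z, hz, rfl⟩ := hx
    rw [Set.mem_singleton_iff] at hz
    subst hz
    rw [hy _ (Submodule.subset_span ⟨n, rfl⟩)] at hxpos
    exact lt_irrefl _ hxpos
  rcases lt_or_gt_of_ne hw0 with h | h
  · refine key (-y) ?_ ?_
    · intro k hk
      rw [inner_neg_left, hy k hk, neg_zero]
    · rw [inner_neg_left]
      linarith
  · exact key y hy h

/-- the graph of a polytope is connected -/
theorem skel_connected (hP : (P.V : Set (WithLp 2 (EuclideanSpace ℝ (Fin d) × ℝ))) =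
    hm '' (S : Set (EuclideanSpace ℝ (Fin d)))) (hd : 1 ≤ d) : (skel S).Connected := by
  classical
  have hfin := node_fin hP
  have : Fintype (Node S) := Fintype.ofFinite _
  have hne : Nonempty (Node S) := by
    rw [← Fintype.card_pos_iff]
    have := nodes_card hP
    omega
  refine ⟨fun A B => ?_⟩
  by_contra hAB
  have h := boundary hP ∅ {z | (skel S).Reachable A z} (fun x hx y hxy _ => hx.trans hxy.reachable)
    (A := A) (B := B) (SimpleGraph.Reachable.refl A) (notMem_empty A) hAB (notMem_empty B) ∅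
    (Subset.refl _) (fun m hm => absurd hm (notMem_empty m))
  rw [card_empty] at h
  omega

/-- edge cuts of the graph of a `d`-polytope -/
theorem skel_cut (hP : (P.V : Set (WithLp 2 (EuclideanSpace ℝ (Fin d) × ℝ))) =
    hm '' (S : Set (EuclideanSpace ℝ (Fin d)))) [Fintype (Node S)] (K : Finset (Node S))
    (hK : K.Nonempty) (hK' : K ≠ univ) : d ≤ bd (skel S) K := by
  classical
  -- the arcs leaving `K`
  set F : Finset (Node S × Node S) :=
    univ.filter fun p => (skel S).Adj p.1 p.2 ∧ p.1 ∈ K ∧ p.2 ∉ K with hF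
  have hbd : bd (skel S) K = F.card := by
    rw [hF, card_filter, Fintype.sum_prod_type]
    rfl
  rw [hbd]
  by_cases hcase : ∃ A ∈ K, ∃ B, B ∉ K ∧ ¬ (skel S).Adj A B
  · obtain ⟨A, hA, B, hB, hAB⟩ := hcase
    set M : Finset (Node S) := (univ.filter fun y => y ∉ K ∧ (skel S).Adj A y) ∪
      (univ.filter fun x => (x ∈ K ∧ x ≠ A) ∧ ∃ y, y ∉ K ∧ (skel S).Adj x y) with hM
    have hmM : ∀ x, x ∈ M ↔ (x ∉ K ∧ (skel S).Adj A x) ∨
        ((x ∈ K ∧ x ≠ A) ∧ ∃ y, y ∉ K ∧ (skel S).Adj x y) := by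
      intro x
      rw [hM, mem_union, mem_filter, mem_filter]
      constructor
      · rintro (⟨_, h⟩ | ⟨_, h⟩)
        · exact Or.inl h
        · exact Or.inr h
      · rintro (h | h)
        · exact Or.inl ⟨mem_univ _, h⟩
        · exact Or.inr ⟨mem_univ _, h⟩
    have hAM : A ∉ M := by
      rw [hmM]
      rintro (⟨h, _⟩ | ⟨⟨_, h⟩, _⟩)
      · exact h hA
      · exact h rfl
    have hBM : B ∉ M := by
      rw [hmM]
      rintro (⟨_, h⟩ | ⟨⟨h, _⟩, _⟩)
      · exact hAB h
      · exact hB h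
    have h1 : d ≤ M.card := by
      refine boundary hP M {x | x ∈ K ∧ x ∉ M} ?_ (A := A) (B := B) ⟨hA, hAM⟩ hAM
        (fun h => hB h.1) hBM M (Subset.refl _) (fun m hm _ _ _ => hm)
      rintro x ⟨hx1, hx2⟩ y hxy hyM
      refine ⟨?_, hyM⟩
      by_contra hyK
      by_cases hxA : x = A
      · subst hxA
        exact hyM ((hmM y).2 (Or.inl ⟨hyK, hxy⟩))
      · exact hx2 ((hmM x).2 (Or.inr ⟨⟨hx1, hxA⟩, y, hyK, hxy⟩))
    refine h1.trans ?_
    have hsel : ∀ x : Node S, ∃ p : Node S × Node S, x ∈ M → p ∈ F ∧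
        ((x ∉ K ∧ p = (A, x)) ∨ (x ∈ K ∧ x ≠ A ∧ p.1 = x)) := by
      intro x
      by_cases hx : x ∈ M
      · rcases (hmM x).1 hx with ⟨h2, h3⟩ | ⟨⟨h2, h3⟩, y, hy, hxy⟩
        · exact ⟨(A, x), fun _ => ⟨mem_filter.2 ⟨mem_univ _, h3, hA, h2⟩, Or.inl ⟨h2, rfl⟩⟩⟩
        · exact ⟨(x, y), fun _ => ⟨mem_filter.2 ⟨mem_univ _, hxy, h2, hy⟩, Or.inr ⟨h2, h3, rfl⟩⟩⟩
      · exact ⟨(x, x), fun h => absurd h hx⟩
    choose f hf using hsel
    refine card_le_card_of_injOn f (fun x hx => (hf x hx).1) ?_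
    intro x hx y hy hxy
    rcases (hf x hx).2 with ⟨h2, h3⟩ | ⟨h2, h3, h4⟩ <;>
      rcases (hf y hy).2 with ⟨h5, h6⟩ | ⟨h5, h6, h7⟩
    · rw [h3, h6] at hxy
      exact (Prod.mk.inj hxy).2
    · rw [← hxy, h3] at h7
      exact absurd h7.symm h6
    · rw [hxy, h6] at h4
      exact absurd h4.symm h3
    · rw [← h4, ← h7, hxy]
  · push Not at hcase
    have h1 : K ×ˢ Kᶜ ⊆ F := by
      rintro ⟨x, y⟩ h
      obtain ⟨hx, hy⟩ := mem_product.1 h
      exact mem_filter.2 ⟨mem_univ _, hcase x hx y (mem_compl.1 hy), hx, mem_compl.1 hy⟩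
    refine le_trans ?_ (card_le_card h1)
    rw [card_product, card_compl]
    have h2 : 1 ≤ K.card := card_pos.2 hK
    have h3 : K.card < Fintype.card (Node S) := by
      rw [← card_univ]
      exact card_lt_card (ssubset_univ_iff.2 hK')
    have h4 := nodes_card hP
    obtain ⟨a, ha⟩ : ∃ a, K.card = a + 1 := ⟨K.card - 1, by omega⟩
    obtain ⟨b, hb⟩ : ∃ b, Fintype.card (Node S) - K.card = b + 1 :=
      ⟨Fintype.card (Node S) - K.card - 1, by omega⟩
    rw [hb, ha]
    have h5 : d ≤ a + b + 1 := by omega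
    nlinarith

/-- the graph of a simple `d`-polytope is `d`-regular -/
theorem skel_regular (hP : (P.V : Set (WithLp 2 (EuclideanSpace ℝ (Fin d) × ℝ))) =
    hm '' (S : Set (EuclideanSpace ℝ (Fin d)))) (hd : 1 ≤ d) [Fintype (Node S)]
    (hS : ∀ x : Node S, {F | IsEdge S F ∧ x.1 ∈ F}.ncard = d) (x : Node S) :
    dg (skel S) x = d := by
  classical
  apply le_antisymm
  · have h := deg_le hP x
    rw [hS x] at h
    unfold dg
    refine le_trans (le_of_eq ?_) h
    congr 1
  · have h2 := nodes_card hP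
    have h := skel_cut hP {x} (singleton_nonempty x) (by
      intro h
      have h3 : ({x} : Finset (Node S)).card = Fintype.card (Node S) := by rw [h, card_univ]
      rw [card_singleton] at h3
      omega)
    refine h.trans ?_
    unfold bd
    rw [sum_eq_single x]
    · unfold dg
      rw [card_filter]
      refine sum_le_sum fun y _ => ?_
      split_ifs with h3 h4
      · exact le_rfl
      · exact absurd h3.1 h4
      · exact Nat.zero_le _
      · exact le_rfl
    · intro z _ hz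
      refine sum_eq_zero fun y _ => if_neg ?_
      rintro ⟨_, h3, _⟩
      exact hz (mem_singleton.1 h3)
    · intro h
      exact absurd (mem_univ _) h

/-- **Closed walks in the graph of a simple polytope.** -/
theorem skel_walk (hd : 1 ≤ d) (hS : IsSimple S) [DecidableEq (Node S)] :
    ∃ (r : Node S) (l : List (Node S)), (r :: l).IsChain (skel S).Adj ∧
      (r :: l).getLast? = some r ∧ ∀ v, 1 ≤ l.count v ∧ l.count v ≤ 2 := by
  obtain ⟨P, hP⟩ := exists_CP S hS.1
  have hfinN := node_fin hP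
  have : Fintype (Node S) := Fintype.ofFinite _
  exact closed_walk (skel S) (skel_connected hP hd) d hd (skel_regular hP hd hS.2) (skel_cut hP)
    (by
      have := nodes_card hP
      omega)

end Pool.Agent.Q142.TWK
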