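import Pool.Agent.Q142.TWK.Join
import Pool.Agent.Q112.CH.Count
import Pool.Agent.H660R3.TS.T_EUL

/-!
# Closed walks visiting every vertex once or twice

Every connected `d`-regular graph (`d ≥ 1`, at least two vertices) in which every nonempty proper set
of vertices is left by at least `d` edges has a closed walk which visits every vertex once or twice:
a spanning tree of maximum degree three together with a multiset of edges correcting the parities of
its degrees.
-/

set_option autoImplicit false
set_option linter.unusedSectionVars false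

namespace Pool.Agent.Q142.TWK

open Finset
open Pool.Agent.Q112.CH (dg exists_deg_three)
open Pool.Agent.H660R3.TS (RTree)
open Pool.Agent.H660R3.TS.EUL (steps fv fv_mk ind ind_self ind_par ind_par_self zz)

variable {W : Type} [Fintype W]

/-- deleting a nonempty set of vertices leaves at most as many components -/
theorem deg_three (G : SimpleGraph W) (hG : G.Connected) (d : ℕ) (hd : 1 ≤ d)
    (hdeg : ∀ v, dg G v = d)
    (hbd : ∀ K : Finset W, K.Nonempty → K ≠ univ → d ≤ bd G K) :
    ∃ T : SimpleGraph W, T ≤ G ∧ T.Connected ∧ ∀ v, dg T v ≤ 3 := by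
  classical
  refine exists_deg_three G hG ?_
  intro S hS I K h1 h2 h3 h4
  rcases I.eq_empty_or_nonempty with hI | ⟨i0, hi0⟩
  · rw [hI, card_empty]
    omega
  set Kf : W → Finset W := fun x => univ.filter fun y => y ∈ K x with hKf
  obtain ⟨s0, hs0⟩ := hS
  have hb : ∀ x ∈ I, d ≤ bd G (Kf x) := by
    intro x hx
    refine hbd (Kf x) ⟨x, mem_filter.2 ⟨mem_univ _, h1 x hx⟩⟩ fun h => ?_
    have : s0 ∈ Kf x := by rw [h]; exact mem_univ _
    exact h2 x hx s0 (mem_filter.1 this).2 hs0
  have hsum : ∑ x ∈ I, bd G (Kf x) ≤ ∑ s ∈ S, dg G s := by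
    unfold bd dg
    rw [sum_comm]
    have h5 : ∀ u, (∑ x ∈ I, ∑ y, if G.Adj u y ∧ u ∈ Kf x ∧ y ∉ Kf x then 1 else 0) ≤
        ∑ s ∈ S, if G.Adj s u then 1 else 0 := by
      intro u
      by_cases hu : ∃ x ∈ I, u ∈ K x
      · obtain ⟨x, hx, hux⟩ := hu
        rw [sum_eq_single x]
        · rw [← sum_filter_add_sum_filter_not univ (fun y => y ∈ S)]
          have h6 : ∑ y with y ∉ S, (if G.Adj u y ∧ u ∈ Kf x ∧ y ∉ Kf x then 1 else 0) =
              0 := by
            refine sum_eq_zero fun y hy => if_neg fun h => ?_
            exact h.2.2 (mem_filter.2 ⟨mem_univ _, h3 x hx u hux y h.1 (mem_filter.1 hy).2⟩)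
          rw [h6, add_zero]
          have h7 : (univ.filter fun y => y ∈ S) = S := by
            ext y
            rw [mem_filter]
            exact ⟨fun h => h.2, fun h => ⟨mem_univ _, h⟩⟩
          rw [h7]
          refine sum_le_sum fun y _ => ?_
          by_cases h8 : G.Adj u y
          · rw [if_pos h8.symm]
            split_ifs <;> omega
          · rw [if_neg fun h => h8 h.1]
            exact Nat.zero_le _
        · intro x' hx' hne
          refine sum_eq_zero fun y _ => if_neg fun h => ?_
          exact h4 x hx x' hx' hne.symm u hux (mem_filter.1 h.2.1).2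
        · intro h
          exact absurd hx h
      · push Not at hu
        refine le_trans (le_of_eq (sum_eq_zero fun x hx => sum_eq_zero fun y _ => if_neg ?_))
          (Nat.zero_le _)
        intro h
        exact hu x hx (mem_filter.1 h.2.1).2
    refine (sum_le_sum fun u _ => h5 u).trans (le_of_eq ?_)
    rw [sum_comm]
    refine sum_congr rfl fun s _ => ?_
    rw [card_filter]
  have h6 : I.card * d ≤ S.card * d := by
    calc I.card * d = ∑ _x ∈ I, d := by rw [sum_const, smul_eq_mul]
      _ ≤ ∑ x ∈ I, bd G (Kf x) := sum_le_sum hb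
      _ ≤ ∑ s ∈ S, dg G s := hsum
      _ = S.card * d := by
        rw [sum_congr rfl fun s _ => hdeg s, sum_const, smul_eq_mul]
  have h7 := Nat.le_of_mul_le_mul_right h6 (by omega)
  omega

/-- a tree as a rooted tree -/
theorem exists_rtree (T : SimpleGraph W) (hT : T.IsTree) (r : W) :
    ∃ R : RTree W, R.root = r ∧ ∀ v, v ≠ r → T.Adj v (R.par v) := by
  classical
  choose P hP hPu using fun v => hT.existsUnique_path r v
  have h0 : (P r).penultimate = r := by
    have h1 := hPu r SimpleGraph.Walk.nil SimpleGraph.Walk.IsPath.nil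
    rw [← h1]
    rfl
  have hnil : ∀ v, v ≠ r → ¬ (P v).Nil := fun v hv h => hv h.eq.symm
  refine ⟨⟨r, fun v => (P v).penultimate, fun v => (P v).length, h0, ?_⟩, rfl, ?_⟩
  · intro v hv
    have h1 := hPu _ (P v).dropLast (hP v).dropLast
    show (P ((P v).penultimate)).length < (P v).length
    rw [← h1, SimpleGraph.Walk.length_dropLast]
    have h2 : (P v).length ≠ 0 := fun h => hnil v hv (SimpleGraph.Walk.length_eq_zero_iff.1 h)
    omega
  · intro v hv
    exact ((P v).adj_penultimate (hnil v hv)).symm

/-- the edges of a rooted tree -/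
noncomputable def te [DecidableEq W] (R : RTree W) : Multiset (Sym2 W) :=
  (univ.erase R.root).val.map fun v => s(v, R.par v)

theorem par_ne (R : RTree W) {v : W} (hv : v ≠ R.root) : R.par v ≠ v := by
  intro h
  have := R.rk_lt v hv
  rw [h] at this
  exact lt_irrefl _ this

theorem md_add (E F : Multiset (Sym2 W)) (v : W) : md (E + F) v = md E v + md F v := by
  unfold md
  rw [Multiset.map_add, Multiset.sum_add]

theorem md_te [DecidableEq W] (R : RTree W) (v : W) : md (te R) v =
    (if v ≠ R.root then 1 else 0) + ((univ.erase R.root).filter fun w => R.par w = v).card := by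
  unfold md te
  rw [Multiset.map_map]
  show ∑ w ∈ univ.erase R.root, mi v s(w, R.par w) = _
  rw [sum_congr rfl fun w hw => mi_mk (par_ne R (mem_erase.1 hw).1).symm v, sum_add_distrib,
    ← card_filter, ← card_filter]
  congr 1
  by_cases h : v = R.root
  · rw [if_neg (not_not.2 h), card_eq_zero, filter_eq_empty_iff]
    intro w hw hwv
    exact (mem_erase.1 hw).1 (hwv.trans h)
  · rw [if_pos h, card_eq_one]
    refine ⟨v, ?_⟩
    ext w
    rw [mem_filter, mem_erase, mem_singleton]
    constructor
    · exact fun h => h.2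
    · rintro rfl
      exact ⟨⟨h, mem_univ _⟩, rfl⟩

theorem md_te_le [DecidableEq W] (R : RTree W) (T : SimpleGraph W)
    (hRT : ∀ v, v ≠ R.root → T.Adj v (R.par v)) (v : W) : md (te R) v ≤ dg T v := by
  classical
  rw [md_te]
  have h1 : (if v ≠ R.root then 1 else 0) = (if v ≠ R.root then ({R.par v} : Finset W) else ∅).card := by
    split_ifs <;> rfl
  rw [h1, ← card_union_of_disjoint]
  · unfold dg
    refine card_le_card fun w hw => ?_
    rw [mem_filter]
    refine ⟨mem_univ _, ?_⟩
    rw [mem_union] at hw
    rcases hw with hw | hw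
    · split_ifs at hw with h2
      · rw [mem_singleton] at hw
        rw [hw]
        exact hRT v h2
      · simp at hw
    · obtain ⟨h2, h3⟩ := mem_filter.1 hw
      rw [← h3]
      exact (hRT w (mem_erase.1 h2).1).symm
  · rw [Finset.disjoint_left]
    intro w hw hw'
    split_ifs at hw with h2
    · rw [mem_singleton] at hw
      obtain ⟨h3, h4⟩ := mem_filter.1 hw'
      have h5 := R.rk_lt v h2
      have h6 := R.rk_lt w (mem_erase.1 h3).1
      rw [h4] at h6
      rw [← hw] at h5
      omega
    · simp at hw

theorem md_te_pos [DecidableEq W] (R : RTree W) (h2 : 2 ≤ Fintype.card W) (v : W) :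
    1 ≤ md (te R) v := by
  rw [md_te]
  by_cases h : v = R.root
  · have h3 : (univ.erase R.root : Finset W).Nonempty := by
      rw [← card_pos, card_erase_of_mem (mem_univ _), card_univ]
      omega
    obtain ⟨w, hw, hmin⟩ := exists_min_image (univ.erase R.root) R.rk h3
    have h4 : R.par w = R.root := by
      by_contra h5
      have h6 := hmin (R.par w) (mem_erase.2 ⟨h5, mem_univ _⟩)
      have h7 := R.rk_lt w (mem_erase.1 hw).1
      omega
    have h5 : 0 < ((univ.erase R.root).filter fun w => R.par w = v).card :=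
      card_pos.2 ⟨w, mem_filter.2 ⟨hw, h4.trans h.symm⟩⟩
    omega
  · rw [if_pos h]
    omega

/-- the crossing indicator in terms of degrees -/
theorem fv_eq (R : RTree W) (v : W) (e : Sym2 W) (he : ¬ e.IsDiag) :
    fv R v e = ∑ a, ind R v a * (mi a e : ZMod 2) := by
  classical
  induction e using Sym2.ind with
  | _ a b =>
    have hab : a ≠ b := fun h => he h
    rw [fv_mk]
    simp only [mi_mk hab, Nat.cast_add, mul_add, sum_add_distrib]
    congr 1
    · rw [sum_eq_single a]
      · simp
      · intro c _ hc
        rw [if_neg hc.symm]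
        simp
      · intro h
        exact absurd (mem_univ _) h
    · rw [sum_eq_single b]
      · simp
      · intro c _ hc
        rw [if_neg hc.symm]
        simp
      · intro h
        exact absurd (mem_univ _) h

theorem fv_sum (R : RTree W) (v : W) (E : Multiset (Sym2 W)) (hE : ∀ e ∈ E, ¬ e.IsDiag) :
    (E.map (fv R v)).sum = ∑ a, ind R v a * (md E a : ZMod 2) := by
  induction E using Multiset.induction_on with
  | empty => simp [md]
  | cons e E ih =>
    rw [Multiset.map_cons, Multiset.sum_cons, ih fun e' he' => hE e' (Multiset.mem_cons_of_mem he'),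
      fv_eq R v e (hE e (Multiset.mem_cons_self _ _)), ← sum_add_distrib]
    refine sum_congr rfl fun a _ => ?_
    have : md (e ::ₘ E) a = mi a e + md E a := by
      unfold md
      rw [Multiset.map_cons, Multiset.sum_cons]
    rw [this, Nat.cast_add, mul_add]

theorem te_sum [DecidableEq W] (R : RTree W) {v : W} (hv : v ≠ R.root) :
    ((te R).map (fv R v)).sum = 1 := by
  unfold te
  rw [Multiset.map_map]
  show ∑ w ∈ univ.erase R.root, fv R v s(w, R.par w) = 1
  rw [sum_eq_single v]
  · rw [fv_mk, ind_self, ind_par_self R hv, add_zero]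
  · intro w _ hw
    rw [fv_mk, ind_par R hw.symm]
    exact zz _
  · intro h
    exact absurd (mem_erase.2 ⟨hv, mem_univ _⟩) h

theorem te_not_diag [DecidableEq W] (R : RTree W) : ∀ e ∈ te R, ¬ e.IsDiag := by
  intro e he
  unfold te at he
  obtain ⟨w, hw, rfl⟩ := Multiset.mem_map.1 he
  exact fun h => par_ne R (mem_erase.1 (Finset.mem_def.2 hw)).1 (Eq.symm h)

/-- the vertices of odd degree are even in number -/
theorem even_odd (E : Multiset (Sym2 W)) (hE : ∀ e ∈ E, ¬ e.IsDiag) :
    Even (univ.filter fun v => Odd (md E v)).card := by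
  classical
  rw [← even_sum_iff_even_card_odd]
  have h : ∑ v, md E v = 2 * E.card := by
    induction E using Multiset.induction_on with
    | empty => simp [md]
    | cons e E ih =>
      have h1 : ∀ a, md (e ::ₘ E) a = mi a e + md E a := by
        intro a
        unfold md
        rw [Multiset.map_cons, Multiset.sum_cons]
      rw [sum_congr rfl fun a _ => h1 a, sum_add_distrib,
        ih fun e' he' => hE e' (Multiset.mem_cons_of_mem he'), Multiset.card_cons, mul_add, add_comm]
      congr 1
      have h2 := hE e (Multiset.mem_cons_self _ _)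
      induction e using Sym2.ind with
      | _ a b =>
        have hab : a ≠ b := fun h => h2 h
        rw [sum_congr rfl fun v _ => mi_mk hab v, sum_add_distrib]
        simp
  rw [h]
  exact even_two_mul _

/-- visits and degrees of a closed walk -/
theorem md_steps [DecidableEq W] (v : W) : ∀ (l : List W) (a : W),
    (∀ e ∈ steps (a :: l), ¬ e.IsDiag) →
    md (steps (a :: l)) v + (if (a :: l).getLast? = some v then 1 else 0) =
      (if a = v then 1 else 0) + 2 * l.count v := by
  intro l
  induction l with
  | nil =>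
    intro a _
    simp [steps, md]
  | cons b l ih =>
    intro a h
    have h1 := ih b fun e he => h e (by
      show e ∈ s(a, b) ::ₘ steps (b :: l)
      exact Multiset.mem_cons_of_mem he)
    have h2 : md (steps (a :: b :: l)) v = mi v s(a, b) + md (steps (b :: l)) v := by
      unfold md
      show ((s(a, b) ::ₘ steps (b :: l)).map _).sum = _
      rw [Multiset.map_cons, Multiset.sum_cons]
    have hab : a ≠ b := by
      intro hab
      refine h s(a, b) ?_ hab
      show s(a, b) ∈ s(a, b) ::ₘ steps (b :: l)
      exact Multiset.mem_cons_self _ _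
    rw [h2, mi_mk hab, List.getLast?_cons_cons, List.count_cons]
    have h3 : (if (b == v) = true then 1 else 0) = if b = v then 1 else 0 := by
      simp
    rw [h3]
    omega

theorem chain_of_steps (G : SimpleGraph W) : ∀ (l : List W), (∀ e ∈ steps l, e ∈ G.edgeSet) →
    l.IsChain G.Adj := by
  intro l
  induction l with
  | nil => intro _; exact List.isChain_nil
  | cons a l ih =>
    intro h
    cases l with
    | nil => exact List.isChain_singleton _
    | cons b l =>
      rw [List.isChain_cons_cons]
      refine ⟨h s(a, b) (Multiset.mem_cons_self _ _), ih fun e he => h e ?_⟩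
      show e ∈ s(a, b) ::ₘ steps (b :: l)
      exact Multiset.mem_cons_of_mem he

/-- **Closed walks visiting every vertex once or twice.** -/
theorem closed_walk [DecidableEq W] (G : SimpleGraph W) (hG : G.Connected) (d : ℕ) (hd : 1 ≤ d)
    (hdeg : ∀ v, dg G v = d)
    (hbd : ∀ K : Finset W, K.Nonempty → K ≠ univ → d ≤ bd G K) (h2 : 2 ≤ Fintype.card W) :
    ∃ (r : W) (l : List W), (r :: l).IsChain G.Adj ∧ (r :: l).getLast? = some r ∧
      ∀ v, 1 ≤ l.count v ∧ l.count v ≤ 2 := by
  obtain ⟨T0, hT0G, hT0c, hT0⟩ := deg_three G hG d hd hdeg hbd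
  obtain ⟨T, hTT0, hT⟩ := hT0c.exists_isTree_le
  obtain ⟨r⟩ : Nonempty W := hG.nonempty
  obtain ⟨R, hRr, hR⟩ := exists_rtree T hT r
  have hR' : ∀ v, v ≠ R.root → T.Adj v (R.par v) := by rwa [hRr]
  have hdgT : ∀ v, dg T v ≤ 3 := by
    classical
    intro v
    refine le_trans ?_ (hT0 v)
    unfold dg
    refine card_le_card fun w hw => ?_
    exact mem_filter.2 ⟨mem_univ _, hTT0 (mem_filter.1 hw).2⟩
  have hle : ∀ v, md (te R) v ≤ 3 := fun v => (md_te_le R T hR' v).trans (hdgT v)
  have hpos := md_te_pos R h2
  obtain ⟨J, hJG, hJ1, hJ2⟩ := exists_join G d hd hdeg hbd (univ.filter fun v => Odd (md (te R) v))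
    (even_odd (te R) (te_not_diag R))
  have hJd : ∀ e ∈ J, ¬ e.IsDiag := fun e he => G.not_isDiag_of_mem_edgeSet (hJG e he)
  have hpar : ∀ v, (md J v : ZMod 2) = (md (te R) v : ZMod 2) := by
    intro v
    rw [ZMod.natCast_eq_natCast_iff' (md J v) (md (te R) v) 2]
    by_cases hv : Odd (md (te R) v)
    · rw [hJ1 v (mem_filter.2 ⟨mem_univ _, hv⟩), Nat.odd_iff.1 hv]
    · rcases hJ2 v (fun h => hv (mem_filter.1 h).2) with h | h
      · rw [h, Nat.even_iff.1 (Nat.not_odd_iff_even.1 hv)]
      · rw [h, Nat.even_iff.1 (Nat.not_odd_iff_even.1 hv)]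
  obtain ⟨l, hl1, hl2, hl3⟩ := Pool.Agent.H660R3.TS.EUL.euler R _ univ J rfl (mem_univ _)
    (fun v _ => mem_univ _) (fun e _ v _ => mem_univ _) (by
      intro v _ hv
      rw [fv_sum R v J hJd, ← te_sum R hv, fv_sum R v (te R) (te_not_diag R)]
      exact sum_congr rfl fun a _ => by rw [hpar a])
  have hl3' : steps l = J + te R := by
    rw [hl3]
    unfold te
    congr 3
    ext v
    simp
  obtain ⟨l', rfl⟩ : ∃ l', l = R.root :: l' := by
    cases l with
    | nil => simp at hl1
    | cons a l' =>
      simp only [List.head?_cons, Option.some.injEq] at hl1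
      exact ⟨l', by rw [hl1]⟩
  have hst : ∀ e ∈ steps (R.root :: l'), e ∈ G.edgeSet := by
    intro e he
    rw [hl3', Multiset.mem_add] at he
    rcases he with he | he
    · exact hJG e he
    · unfold te at he
      obtain ⟨w, hw, rfl⟩ := Multiset.mem_map.1 he
      exact hT0G (hTT0 (hR' w (mem_erase.1 (Finset.mem_def.2 hw)).1))
  refine ⟨R.root, l', chain_of_steps G _ hst, hl2, fun v => ?_⟩
  have h3 := md_steps v l' R.root fun e he => G.not_isDiag_of_mem_edgeSet (hst e he)
  rw [hl2, hl3', md_add] at h3
  have h4 : (if (some R.root : Option W) = some v then 1 else 0) = if R.root = v then 1 else 0 := by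
    simp
  rw [h4] at h3
  have h5 := hle v
  have h6 := hpos v
  by_cases hv : Odd (md (te R) v)
  · have h7 := hJ1 v (mem_filter.2 ⟨mem_univ _, hv⟩)
    omega
  · have h8 := Nat.even_iff.1 (Nat.not_odd_iff_even.1 hv)
    rcases hJ2 v (fun h => hv (mem_filter.1 h).2) with h | h <;> omega

end Pool.Agent.Q142.TWK
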